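import Pool.Agent.D5.Typ
import Pool.Agent.KT.Alg.All
import Pool.Agent.KT.Final
import Pool.Agent.Helper7.CM8.Main

/-!
Grothendieck classes on abelian varieties whose simple factors are of dimension at most two, or have
real multiplication of relative dimension one or two, or complex multiplication.
-/

set_option autoImplicit false

namespace Pool.Agent.Helper31.KTS

open Module NumberField
open Pool.Agent.Helper7 Pool.Agent.GPC Pool.Agent.Helper8.T1

/-- simple factors are not zero -/
theorem factor_ne {B X : AbVar} (h : B.IsSimpleFactor X) : B.g ≠ 0 := by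
  obtain ⟨-, f, hf, v, hv⟩ := h
  intro h0
  apply hv
  have h1 : v = 0 := by
    funext i
    rcases i with i | i
    · exact absurd i.2 (by omega)
    · exact absurd i.2 (by omega)
  rw [h1]
  exact hf.linear.map_zero

/-- simple abelian varieties of dimension at most two -/
theorem small {B : AbVar} (hs : B.IsSimple) (h0 : B.g ≠ 0) (h2 : B.g ≤ 2) :
    (∃ (K : Type) (_ : Field K) (_ : NumberField K), IsRMType B K) ∨
      (∃ (K : Type) (_ : Field K) (_ : NumberField K) (ρ : K → B.H1 → B.H1), B.HasCM K ρ) ∨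
      B.IsGenericSurface := by
  rcases Pool.Agent.D5.Typ_ B hs h0 (by omega) with h | h | h | h | h | h | h | h
  · exact Or.inl h
  · obtain ⟨K, i1, i2, h⟩ := h
    obtain ⟨ρ, hρ⟩ := hasCM_of_isCMType h
    exact Or.inr (Or.inl ⟨K, i1, i2, ρ, hρ⟩)
  · exact Or.inr (Or.inr h)
  · exact absurd h.1 (by omega)
  · exact absurd h.1 (by omega)
  · exact absurd h.1 (by omega)
  · exact absurd h.1 (by omega)
  · exact absurd h.1 (by omega)

theorem main (X : AbVar)
    (hX : ∀ B : AbVar, B.IsSimpleFactor X → B.g ≤ 2 ∨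
      (∃ (K : Type) (_ : Field K) (_ : NumberField K), IsRMType B K) ∨
      (∃ (K : Type) (_ : Field K) (_ : NumberField K) (ρ : K → B.H1 → B.H1), B.HasCM K ρ) ∨
      (∃ (K : Type) (_ : Field K) (_ : NumberField K), B.IsRelTwoFactor X K))
    (k : ℕ) (α : X.Class (2 * k)) (hα : X.IsGrothendieckClass k α)
    (hCM : X.IsInFilPred k α ∨ X.IsCMPairVar) : X.IsInFil k α := by
  refine Pool.Agent.Helper7.CM8.main_8 Pool.Agent.KT.thm_KT Pool.Agent.KT.Alg.Act_
    Pool.Agent.KT.Alg.thm_Gen X (fun B hB => ?_) k α hα hCM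
  rcases hX B hB with h | h | h | h
  · rcases small hB.1 (factor_ne hB) h with h | h | h
    · exact Or.inl h
    · exact Or.inr (Or.inl h)
    · exact Or.inr (Or.inr (Or.inr h))
  · exact Or.inl h
  · exact Or.inr (Or.inl h)
  · exact Or.inr (Or.inr (Or.inl h))

end Pool.Agent.Helper31.KTS
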